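import Pool.Agent.helper4.HL.Spec

/-!
# hl:GEN, almost every mantissa is generic
-/

open scoped BigOperators ComplexOrder ComplexConjugate Topology

namespace Pool.Agent.HL

open Pool.Agent.helper86.CM Pool.Agent.QS Filter MeasureTheory

noncomputable section

theorem GEN_lam {B : Lat 1 ≃ₗ[ℤ] Lat 1} {t : ℤ} (hB : Cat B t) : 2 ≤ lam t := by
  have h4 : 4 ≤ t := by
    have h1 := hB.lt
    obtain ⟨s, hs⟩ := hB.ev
    omega
  unfold lam
  have h1 : (4 : ℝ) ≤ (t : ℝ) := by exact_mod_cast h4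
  have h2 : 0 ≤ Real.sqrt ((t : ℝ) ^ 2 - 4) := Real.sqrt_nonneg _
  linarith

theorem GEN (hU : UDC_stmt) (hBN : BNZ_stmt) : GEN_stmt := by
  intro B t hB
  have hl : 2 ≤ lam t := GEN_lam hB
  have hl0 : 0 < lam t := by linarith
  have hli : (lam t)⁻¹ < 1 := inv_lt_one_of_one_lt₀ (by linarith)
  have ha : 0 < lam t - (lam t)⁻¹ := by linarith
  set K : Set ℝ := {κ | ∃ (n m : Lat 1) (d : ℕ), n ≠ 0 ∧ m ≠ 0 ∧ 1 ≤ d ∧
    κ = beta B t n m * ((lam t) ^ d - 1)} with hK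
  have hKc : K.Countable := by
    refine (Set.countable_range fun p : Lat 1 × Lat 1 × ℕ =>
      beta B t p.1 p.2.1 * ((lam t) ^ p.2.2 - 1)).mono ?_
    rintro κ ⟨n, m, d, _, _, _, rfl⟩
    exact ⟨(n, m, d), rfl⟩
  have hK0 : ∀ κ ∈ K, κ ≠ 0 := by
    rintro κ ⟨n, m, d, hn, hm, hd, rfl⟩
    refine mul_ne_zero (hBN B t hB n m hn hm) ?_
    have h1 : 1 < (lam t) ^ d := one_lt_pow₀ (by linarith) (by omega)
    linarith
  filter_upwards [hU (lam t) (lam t - (lam t)⁻¹) K hl ha hKc hK0] with c hc hc0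
  intro n m hn hm d hd
  have h1 := hc hc0 _ ⟨n, m, d, hn, hm, hd, rfl⟩
  refine h1.congr fun l => ?_
  congr 1
  refine Finset.sum_congr rfl fun s _ => ?_
  congr 1
  rw [pow_add]
  ring

end

end Pool.Agent.HL
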