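import Pool.Agent.helper4.HL.Spec

/-!
# hl:PHL, convergence of the forms
-/

open scoped BigOperators ComplexOrder ComplexConjugate Topology

namespace Pool.Agent.HL

open Pool.Agent.helper86.CM Pool.Agent.QS Filter MeasureTheory

noncomputable section

theorem PHL_lam {t : ℤ} (ht : 2 < t) : 1 < lam t := by
  unfold lam
  have h1 : (2 : ℝ) < (t : ℝ) := by exact_mod_cast ht
  have h2 : 0 ≤ Real.sqrt ((t : ℝ) ^ 2 - 4) := Real.sqrt_nonneg _
  linarith

theorem PHL (hL : LUV_stmt) : PHL_stmt := by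
  intro B t hB k N c hc hk hN x y
  obtain ⟨hu, hw⟩ := hL B t hB
  have hl : 1 < lam t := PHL_lam hB.lt
  have hl0 : 0 < lam t := by linarith
  have hli : (lam t)⁻¹ < 1 := inv_lt_one_of_one_lt₀ hl
  have hli0 : 0 < (lam t)⁻¹ := inv_pos.2 hl0
  have hd : lam t - (lam t)⁻¹ ≠ 0 := by
    have : 0 < lam t - (lam t)⁻¹ := by linarith
    exact this.ne'
  -- the two basic sequences
  have ha : Tendsto (fun j => ((N j : ℝ) / lam t ^ (k j))⁻¹) atTop (𝓝 c⁻¹) := hN.inv₀ hc.ne'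
  have hb : Tendsto (fun j => ((lam t)⁻¹) ^ (k j)) atTop (𝓝 0) :=
    (tendsto_pow_atTop_nhds_zero_of_lt_one hli0.le hli).comp hk
  set a : ℕ → ℝ := fun j => ((N j : ℝ) / lam t ^ (k j))⁻¹ with ha'
  set b : ℕ → ℝ := fun j => ((lam t)⁻¹) ^ (k j) with hb'
  have hab : ∀ j, ((N j : ℝ))⁻¹ = a j * b j := by
    intro j
    simp only [ha', hb']
    rw [inv_div, inv_pow, div_mul_eq_mul_div, mul_inv_cancel₀ (pow_ne_zero _ hl0.ne'), one_div]
  have hlb : ∀ j, lam t ^ (k j) * b j = 1 := by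
    intro j
    simp only [hb']
    rw [inv_pow, mul_inv_cancel₀ (pow_ne_zero _ hl0.ne')]
  have hu' : ∀ j, (lu t (k j) : ℝ) = (lam t ^ (k j) - b j) * (lam t - (lam t)⁻¹)⁻¹ := by
    intro j
    rw [← hu (k j), mul_assoc, mul_inv_cancel₀ hd, mul_one]
  set D : ℝ := beta B t x.1 y.2 - beta B t y.1 x.2 with hD
  set S : ℝ := (omega x.1 y.1 : ℝ) + (omega x.2 y.2 : ℝ) with hS
  set E : ℝ := (omega x.1 y.2 : ℝ) - (omega y.1 x.2 : ℝ) with hE
  have h1 : ∀ j, Pool.Agent.QS.hN (N j) (x.1 + pw B (k j : ℤ) x.2) (y.1 + pw B (k j : ℤ) y.2) =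
      (S * (a j * b j) + (a j - a j * b j ^ 2) * (lam t - (lam t)⁻¹)⁻¹ * D +
        a j * b j ^ 2 * E) / 2 := by
    intro j
    unfold Pool.Agent.QS.hN
    have h2 : omega (x.1 + pw B (k j : ℤ) x.2) (y.1 + pw B (k j : ℤ) y.2) =
        omega x.1 y.1 + omega x.2 y.2 + omega x.1 (pw B (k j : ℤ) y.2) -
          omega y.1 (pw B (k j : ℤ) x.2) := by
      rw [omega_add_left, omega_add_right, omega_add_right, pw_om hB,
        omega_swap (pw B (k j : ℤ) x.2) y.1]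
      ring
    rw [h2]
    push_cast
    rw [hw (k j) x.1 y.2, hw (k j) y.1 x.2, div_eq_mul_inv, mul_inv, hab j, hu' j]
    have h3 := hlb j
    have h4 : ((lam t)⁻¹) ^ (k j) = b j := rfl
    rw [h4]
    rw [hD, hS, hE]
    linear_combination (a j * (lam t - (lam t)⁻¹)⁻¹ * (beta B t x.1 y.2 - beta B t y.1 x.2) / 2) * h3
  simp only [h1]
  have h5 : hx B t (((lam t) - (lam t)⁻¹) * c)⁻¹ x y =
      (S * (c⁻¹ * 0) + (c⁻¹ - c⁻¹ * 0 ^ 2) * (lam t - (lam t)⁻¹)⁻¹ * D + c⁻¹ * 0 ^ 2 * E) / 2 := by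
    unfold hx hh
    rw [mul_inv, ← hD]
    ring
  rw [h5]
  refine Tendsto.div_const ?_ 2
  refine Tendsto.add (Tendsto.add ((ha.mul hb).const_mul S) ?_) ?_
  · exact ((ha.sub (ha.mul (hb.pow 2))).mul_const _).mul_const _
  · exact (ha.mul (hb.pow 2)).mul_const _

end

end Pool.Agent.HL
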