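import Pool.Agent.helper4.HL.Spec

/-!
# hl:PHQ, phases between different sites, by scaling
-/

open scoped BigOperators ComplexOrder ComplexConjugate Topology

namespace Pool.Agent.HL

open Pool.Agent.helper86.CM Pool.Agent.QS Filter MeasureTheory

noncomputable section

theorem PHQ_scale (Q N : ℕ) (hQ : 1 ≤ Q) (x y : Lat 1) : hN N x y = Q * hN (Q * N) x y := by
  have hQ0 : (Q : ℝ) ≠ 0 := by
    have : 0 < Q := hQ
    exact_mod_cast this.ne'
  unfold hN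
  push_cast
  rw [← mul_div_assoc, show (2 : ℝ) * ((Q : ℝ) * (N : ℝ)) = (Q : ℝ) * (2 * (N : ℝ)) by ring,
    mul_div_mul_left _ _ hQ0]

theorem PHQ (hP : PH_stmt) : PHQ_stmt := by
  intro B t hB Q hQ
  obtain ⟨C, hC, h⟩ := hP B t hB
  have hQ1 : (1 : ℝ) ≤ Q := by exact_mod_cast hQ
  refine ⟨Q * C, by nlinarith, ?_⟩
  intro s J r i j N x y hs hij hj hN'
  obtain ⟨z, hz⟩ := h s J r i j (Q * N) x y hs hij hj hN'
  refine ⟨Q * z, ?_⟩
  rw [PHQ_scale Q N hQ]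
  push_cast
  rw [← mul_sub, abs_mul, abs_of_nonneg (by linarith : (0 : ℝ) ≤ Q)]
  calc (Q : ℝ) * |hN (Q * N) (site B s (s * J) r j x) (site B s (s * J) r i y) - z|
      ≤ (Q : ℝ) * (C * ‖x‖ * ‖y‖ *
        (((lam t)⁻¹) ^ (s * (j - i)) + ((lam t)⁻¹) ^ (s * (J - (j - i))))) :=
        mul_le_mul_of_nonneg_left hz (by linarith)
    _ = Q * C * ‖x‖ * ‖y‖ *
        (((lam t)⁻¹) ^ (s * (j - i)) + ((lam t)⁻¹) ^ (s * (J - (j - i)))) := by ring

end

end Pool.Agent.HL
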